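import Pool.Agent.Helper74_Centr.Final

/-!
# Which finite groups are of the form `G_P`?

A finite group `G` is isomorphic to `G_P` for some non-special rational function `P` of degree at
least two if and only if `G` has a normal subgroup `T` with cyclic quotient `G ⧸ T` such that `T`
embeds in `PGL₂(ℂ)` (so that `T` is cyclic, dihedral, `A₄`, `S₄` or `A₅`).

Necessity (`Necessity.lean`): `T` is the kernel of the character
`X ↦ exp (2 π i log (deg X) / log (deg P))`; it embeds in `PGL₂(ℂ)` by Lüroth's theorem.

Sufficiency (`Final.lean`): let `g` generate `G` modulo `T`, let `φ` be the conjugation by `g` on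
`T`, let `m` be the order of `gT` and `t₀ = g ^ m ∈ T`. Tsen's theorem for a ternary quadratic form
gives rational functions `R` with `R ∘ t = φ(t) ∘ R` for all `t ∈ T`; a sufficiently generic such
`R` (with algebraically independent parameters, studied with derivations of `ℂ`) is indecomposable
with many critical values and its only Möbius symmetries are the elements of `T`. For
`P = t₀⁻¹ ∘ R^m` the centralizer `C(P)` is then exactly `{t ∘ R^j}`, and `G_P ≅ G`.
-/

namespace Pool.Agent.Results.MP_46dca5_an.Classification

open Pool.Agent.Helper74_Centr

/-- A finite group `G` is isomorphic to `G_P = C(P) / ∼_P` for some non-special rational function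
`P` of degree at least two if and only if `G` has a normal subgroup `T` with `G ⧸ T` cyclic which
embeds in `PGL₂(ℂ)`. -/
theorem result (G : Type*) [Group G] [Finite G] :
    (∃ P : RatMap, 2 ≤ P.degree ∧ ¬ IsSpecial P ∧ Nonempty (G ≃* GP P)) ↔
      ∃ (T : Subgroup G) (_ : T.Normal), IsCyclic (G ⧸ T) ∧
        ∃ f : T →* Matrix.ProjGenLinGroup (Fin 2) ℂ, Function.Injective f := by
  constructor
  · rintro ⟨P, hP, -, ⟨e⟩⟩
    exact necessity P hP e
  · rintro ⟨T, hT, hcyc, f, hf⟩
    exact sufficiency T hcyc f hf

end Pool.Agent.Results.MP_46dca5_an.Classification
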